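import Pool.Agent.Q37.GU.Stm
import Mathlib

/-!
Project GU (helper37), job Q2: descent of finite étale algebras, from `S_Q2a`.
-/

set_option autoImplicit false

open scoped TensorProduct

namespace Q143.GU_Q2

open Pool.Agent.Q37.GU Pool.Agent.W481

theorem exists_fg_finset {α : Type*} (s : Finset α) (Q : α → Subalgebra Qb ℂ → Prop)
    (h : ∀ x ∈ s, ∃ S₀ : Subalgebra Qb ℂ, S₀.FG ∧ ∀ S, S₀ ≤ S → Q x S) :
    ∃ S₀ : Subalgebra Qb ℂ, S₀.FG ∧ ∀ x ∈ s, ∀ S, S₀ ≤ S → Q x S := by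
  classical
  induction s using Finset.induction_on with
  | empty => exact ⟨⊥, Subalgebra.fg_bot, fun x hx => absurd hx (Finset.notMem_empty x)⟩
  | insert a s ha ih =>
    obtain ⟨S₁, h1, h1'⟩ := ih fun x hx => h x (Finset.mem_insert_of_mem hx)
    obtain ⟨S₂, h2, h2'⟩ := h a (Finset.mem_insert_self a s)
    refine ⟨S₁ ⊔ S₂, h1.sup h2, fun x hx S hS => ?_⟩
    rcases Finset.mem_insert.1 hx with rfl | hx
    · exact h2' S (le_sup_right.trans hS)
    · exact h1' x hx S (le_sup_left.trans hS)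

variable {A0 : Type} [CommRing A0] [Algebra Qb A0]

/-- every element of `ℂ ⊗ A0` comes from `S ⊗ A0` for all large `S` -/
theorem exists_lift (r : ℂ ⊗[Qb] A0) : ∃ S₀ : Subalgebra Qb ℂ, S₀.FG ∧ ∀ S : Subalgebra Qb ℂ,
    S₀ ≤ S → ∃ t : S ⊗[Qb] A0,
      Algebra.TensorProduct.map S.val (AlgHom.id Qb A0) t = r := by
  induction r using TensorProduct.induction_on with
  | zero => exact ⟨⊥, Subalgebra.fg_bot, fun S _ => ⟨0, map_zero _⟩⟩
  | tmul z a =>
    refine ⟨Algebra.adjoin Qb {z}, ⟨{z}, by simp⟩, fun S hS => ?_⟩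
    have hz : z ∈ S := hS (Algebra.subset_adjoin (Set.mem_singleton z))
    exact ⟨(⟨z, hz⟩ : S) ⊗ₜ a, by simp⟩
  | add x y hx hy =>
    obtain ⟨S₁, h1, h1'⟩ := hx
    obtain ⟨S₂, h2, h2'⟩ := hy
    refine ⟨S₁ ⊔ S₂, h1.sup h2, fun S hS => ?_⟩
    obtain ⟨t, ht⟩ := h1' S (le_sup_left.trans hS)
    obtain ⟨t', ht'⟩ := h2' S (le_sup_right.trans hS)
    exact ⟨t + t', by rw [map_add, ht, ht']⟩

variable {C : Type} [CommRing C] [Algebra (ℂ ⊗[Qb] A0) C]

/-- the map `S ⊗ A0 → C` -/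
noncomputable def kk (C : Type) [CommRing C] [Algebra (ℂ ⊗[Qb] A0) C] (S : Subalgebra Qb ℂ) :
    S ⊗[Qb] A0 →+* C :=
  (algebraMap (ℂ ⊗[Qb] A0) C).comp (Algebra.TensorProduct.map S.val (AlgHom.id Qb A0)).toRingHom

theorem kk_neg_one (S : Subalgebra Qb ℂ) :
    kk (A0 := A0) C S ((-1 : S) ⊗ₜ[Qb] (1 : A0)) = -1 := by
  apply eq_neg_of_add_eq_zero_left
  have h1 : kk (A0 := A0) C S ((1 : S) ⊗ₜ[Qb] (1 : A0)) = 1 := by
    rw [← Algebra.TensorProduct.one_def, map_one]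
  rw [← h1, ← map_add, ← TensorProduct.add_tmul, neg_add_cancel, TensorProduct.zero_tmul,
    map_zero]

theorem mem_closure (g : Finset C) (hg : Algebra.adjoin (ℂ ⊗[Qb] A0) (g : Set C) = ⊤) (c : C) :
    ∃ S₀ : Subalgebra Qb ℂ, S₀.FG ∧ ∀ S : Subalgebra Qb ℂ, S₀ ≤ S →
      c ∈ Subring.closure (Set.range (kk (A0 := A0) C S) ∪ (g : Set C)) := by
  have hc : c ∈ Algebra.adjoin (ℂ ⊗[Qb] A0) (g : Set C) := by rw [hg]; trivial
  induction hc using Algebra.adjoin_induction with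
  | mem x hx =>
    exact ⟨⊥, Subalgebra.fg_bot, fun S _ => Subring.subset_closure (Or.inr hx)⟩
  | algebraMap r =>
    obtain ⟨S₀, h0, h0'⟩ := exists_lift r
    refine ⟨S₀, h0, fun S hS => Subring.subset_closure (Or.inl ?_)⟩
    obtain ⟨t, ht⟩ := h0' S hS
    exact ⟨t, congrArg (algebraMap (ℂ ⊗[Qb] A0) C) ht⟩
  | add x y _ _ hx hy =>
    obtain ⟨S₁, h1, h1'⟩ := hx
    obtain ⟨S₂, h2, h2'⟩ := hy
    exact ⟨S₁ ⊔ S₂, h1.sup h2, fun S hS => Subring.add_mem _ (h1' S (le_sup_left.trans hS))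
      (h2' S (le_sup_right.trans hS))⟩
  | mul x y _ _ hx hy =>
    obtain ⟨S₁, h1, h1'⟩ := hx
    obtain ⟨S₂, h2, h2'⟩ := hy
    exact ⟨S₁ ⊔ S₂, h1.sup h2, fun S hS => Subring.mul_mem _ (h1' S (le_sup_left.trans hS))
      (h2' S (le_sup_right.trans hS))⟩

open Polynomial in
/-- integral elements stay integral -/
theorem integral_lift (c : C) (hc : IsIntegral (ℂ ⊗[Qb] A0) c) :
    ∃ S₀ : Subalgebra Qb ℂ, S₀.FG ∧ ∀ S : Subalgebra Qb ℂ, S₀ ≤ S →
      ∃ q : (S ⊗[Qb] A0)[X], q.Monic ∧ q.eval₂ (kk (A0 := A0) C S) c = 0 := by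
  classical
  obtain ⟨p, hp, hp0⟩ := hc
  obtain ⟨S₀, h0, h0'⟩ := exists_fg_finset (Finset.range (p.natDegree + 1))
    (fun n S => ∃ t : S ⊗[Qb] A0,
      Algebra.TensorProduct.map S.val (AlgHom.id Qb A0) t = p.coeff n)
    (fun n _ => exists_lift (p.coeff n))
  refine ⟨S₀, h0, fun S hS => ?_⟩
  have hl : p ∈ Polynomial.lifts
      (Algebra.TensorProduct.map S.val (AlgHom.id Qb A0)).toRingHom := by
    rw [Polynomial.lifts_iff_coeff_lifts]
    intro n
    by_cases hn : n ∈ Finset.range (p.natDegree + 1)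
    · obtain ⟨t, ht⟩ := h0' n hn S hS
      exact ⟨t, ht⟩
    · refine ⟨0, ?_⟩
      rw [map_zero, Polynomial.coeff_eq_zero_of_natDegree_lt]
      simpa using hn
  obtain ⟨q, hq, -, hqm⟩ := Polynomial.lifts_and_natDegree_eq_and_monic hl hp
  refine ⟨q, hqm, ?_⟩
  rw [kk, ← Polynomial.eval₂_map, hq]
  exact hp0

theorem q2 (h : S_Q2a) : S_Q2 := by
  classical
  intro A0 _ _ C _ _ _ _ F F'
  obtain ⟨S₀, hS0, g, hg, H⟩ := h A0 C
  obtain ⟨S₁, hS1, H1⟩ := exists_fg_finset F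
    (fun c S => c ∈ Subring.closure (Set.range (kk (A0 := A0) C S) ∪ (g : Set C)))
    (fun c _ => mem_closure g hg c)
  obtain ⟨S₂, hS2, H2⟩ := exists_fg_finset g
    (fun c S => ∃ q : Polynomial (S ⊗[Qb] A0), q.Monic ∧ q.eval₂ (kk (A0 := A0) C S) c = 0)
    (fun c _ => integral_lift c (Algebra.IsIntegral.isIntegral c))
  set S₃ : Subalgebra Qb ℂ := Algebra.adjoin Qb (F' : Set ℂ) with hS3
  have hS3' : S₃.FG := ⟨F', rfl⟩
  set S : Subalgebra Qb ℂ := ((S₀ ⊔ S₁) ⊔ S₂) ⊔ S₃ with hS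
  have h0 : S₀ ≤ S := (le_sup_left.trans le_sup_left).trans le_sup_left
  have h1 : S₁ ≤ S := (le_sup_right.trans le_sup_left).trans le_sup_left
  have h2 : S₂ ≤ S := le_sup_right.trans le_sup_left
  have h3 : S₃ ≤ S := le_sup_right
  have hSfg : S.FG := ((hS0.sup hS1).sup hS2).sup hS3'
  obtain ⟨D, iD, iA, iE, j, hj, hjt, hjr⟩ := H S h0
  have hk : ∀ t : S ⊗[Qb] A0, j (algebraMap (S ⊗[Qb] A0) D t) = kk (A0 := A0) C S t := hjt
  have hjr' : j.range = Subring.closure (Set.range (kk (A0 := A0) C S) ∪ (g : Set C)) := hjr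
  -- preimages of the generators
  have hpre : ∀ c ∈ g, ∃ d, j d = c := by
    intro c hc
    have : c ∈ j.range := by
      rw [hjr']
      exact Subring.subset_closure (Or.inr hc)
    exact this
  have hint : ∀ d : D, j d ∈ g → IsIntegral (S ⊗[Qb] A0) d := by
    intro d hd
    obtain ⟨q, hq, hq0⟩ := H2 (j d) hd S h2
    refine ⟨q, hq, hj ?_⟩
    rw [map_zero, Polynomial.hom_eval₂, ← hq0]
    exact congrArg (fun k => Polynomial.eval₂ k (j d) q) (RingHom.ext fun t => hk t)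
  set s : Set D := j ⁻¹' (g : Set C) with hs
  have hsfin : s.Finite := Set.Finite.preimage hj.injOn g.finite_toSet
  have hadj : Algebra.adjoin (S ⊗[Qb] A0) s = ⊤ := by
    rw [eq_top_iff]
    intro d _
    have hle : ∀ c ∈ Subring.closure (Set.range (kk (A0 := A0) C S) ∪ (g : Set C)),
        ∃ d' ∈ Algebra.adjoin (S ⊗[Qb] A0) s, j d' = c := by
      intro c hc
      induction hc using Subring.closure_induction with
      | mem c hc =>
        rcases hc with ⟨t, rfl⟩ | hc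
        · exact ⟨algebraMap (S ⊗[Qb] A0) D t, Subalgebra.algebraMap_mem _ t, hk t⟩
        · obtain ⟨d', hd'⟩ := hpre c hc
          refine ⟨d', Algebra.subset_adjoin ?_, hd'⟩
          show j d' ∈ (g : Set C)
          rw [hd']; exact hc
      | zero => exact ⟨0, Subalgebra.zero_mem _, map_zero j⟩
      | one => exact ⟨1, Subalgebra.one_mem _, map_one j⟩
      | add x y _ _ hx hy =>
        obtain ⟨x', hx', rfl⟩ := hx
        obtain ⟨y', hy', rfl⟩ := hy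
        exact ⟨x' + y', Subalgebra.add_mem _ hx' hy', map_add j x' y'⟩
      | neg x _ hx =>
        obtain ⟨x', hx', rfl⟩ := hx
        refine ⟨(algebraMap (S ⊗[Qb] A0) D ((-1 : S) ⊗ₜ[Qb] (1 : A0))) * x',
          Subalgebra.mul_mem _ (Subalgebra.algebraMap_mem _ _) hx', ?_⟩
        rw [map_mul, hk, kk_neg_one, neg_one_mul]
      | mul x y _ _ hx hy =>
        obtain ⟨x', hx', rfl⟩ := hx
        obtain ⟨y', hy', rfl⟩ := hy
        exact ⟨x' * y', Subalgebra.mul_mem _ hx' hy', map_mul j x' y'⟩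
    obtain ⟨d', hd', he⟩ := hle (j d) (by rw [← hjr']; exact ⟨d, rfl⟩)
    rw [← hj he]
    exact hd'
  have hfin : Module.Finite (S ⊗[Qb] A0) D := by
    have := fg_adjoin_of_finite (R := S ⊗[Qb] A0) hsfin (fun x hx => hint x hx)
    rw [hadj] at this
    exact ⟨this⟩
  refine ⟨S, hSfg, fun z hz => h3 (Algebra.subset_adjoin hz), D, iD, iA, iE, hfin, j, hj, ?_, hjt⟩
  intro c hc
  have : c ∈ j.range := by
    rw [hjr']
    exact H1 c hc S h1
  exact this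

end Q143.GU_Q2
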