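import Pool.Agent.Q61.MH.Stm

/-!
# Job LOC1 of the project MH (MP_499f6d_pr)
-/

set_option autoImplicit false

open Real Set

namespace Pool.Agent.Q143.MH

/-- `f(0) = 0` and `f' ≥ 0` on `[0, 1/2]` give `f ≥ 0`. -/
lemma mono0 {f f' : ℝ → ℝ} (h : ∀ s ∈ Icc (0 : ℝ) (1 / 2), HasDerivAt f (f' s) s) (h0 : f 0 = 0)
    (hp : ∀ s ∈ Icc (0 : ℝ) (1 / 2), 0 ≤ f' s) : ∀ s ∈ Icc (0 : ℝ) (1 / 2), 0 ≤ f s := by
  have hm : MonotoneOn f (Icc (0 : ℝ) (1 / 2)) := by
    refine monotoneOn_of_deriv_nonneg (convex_Icc _ _)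
      (fun s hs => (h s hs).continuousAt.continuousWithinAt)
      (fun s hs => (h s (interior_subset hs)).differentiableAt.differentiableWithinAt) ?_
    intro s hs
    rw [(h s (interior_subset hs)).deriv]
    exact hp s (interior_subset hs)
  intro s hs
  have := hm (left_mem_Icc.2 (by norm_num)) hs hs.1
  rwa [h0] at this

theorem loc1 : Pool.Agent.Q61.MH.S_loc1 := by
  intro r x hr hx
  have hr1 : 1 ≤ r := by rcases hr with h | h <;> linarith [h]
  have hpos : ∀ s ∈ Icc (0 : ℝ) (1 / 2), 0 < x - s ∧ 0 < x + s := by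
    intro s hs
    exact ⟨by linarith [hs.1, hs.2], by linarith [hs.1, hs.2]⟩
  have dp : ∀ p : ℝ, ∀ s ∈ Icc (0 : ℝ) (1 / 2), HasDerivAt (fun s => (x + s) ^ p) (p * (x + s) ^ (p - 1)) s := by
    intro p s hs
    have h1 : HasDerivAt (fun s => x + s) 1 s := by simpa using (hasDerivAt_id s).const_add x
    have := h1.rpow_const (p := p) (Or.inl (hpos s hs).2.ne')
    convert this using 1
    ring
  have dm : ∀ p : ℝ, ∀ s ∈ Icc (0 : ℝ) (1 / 2), HasDerivAt (fun s => (x - s) ^ p) (-(p * (x - s) ^ (p - 1))) s := by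
    intro p s hs
    have h1 : HasDerivAt (fun s => x - s) (-1) s := by simpa using (hasDerivAt_id s).const_sub x
    have := h1.rpow_const (p := p) (Or.inl (hpos s hs).1.ne')
    convert this using 1
    ring
  set A : ℝ → ℝ := fun s => (x - s) ^ (r - 2) + (x + s) ^ (r - 2) with hA
  set A' : ℝ → ℝ := fun s => (r - 2) * ((x + s) ^ (r - 3) - (x - s) ^ (r - 3)) with hA'
  have dA : ∀ s ∈ Icc (0 : ℝ) (1 / 2), HasDerivAt A (A' s) s := by
    intro s hs
    have h := (dm (r - 2) s hs).add (dp (r - 2) s hs)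
    have e : r - 2 - 1 = r - 3 := by ring
    rw [e] at h
    refine HasDerivAt.congr_deriv h ?_
    simp only [hA']
    ring
  have pA : ∀ s ∈ Icc (0 : ℝ) (1 / 2), 0 ≤ A' s := by
    intro s hs
    obtain ⟨h1, h2⟩ := hpos s hs
    rcases hr with h | h
    · refine mul_nonneg_of_nonpos_of_nonpos (by linarith [h.2]) ?_
      have := Real.rpow_le_rpow_of_nonpos h1 (show x - s ≤ x + s by linarith [hs.1]) (show r - 3 ≤ 0 by linarith [h.2])
      linarith
    · refine mul_nonneg (by linarith) ?_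
      have := Real.rpow_le_rpow h1.le (show x - s ≤ x + s by linarith [hs.1]) (show 0 ≤ r - 3 by linarith)
      linarith
  have hrr : 0 ≤ r * (r - 1) := mul_nonneg (by linarith) (by linarith)
  -- the function `K`
  have hK : ∀ s ∈ Icc (0 : ℝ) (1 / 2), 0 ≤ s * (r * (r - 1)) * A s - r * ((x + s) ^ (r - 1) - (x - s) ^ (r - 1)) := by
    refine mono0 (f' := fun s => s * (r * (r - 1)) * A' s) ?_ (by simp) ?_
    · intro s hs
      have h1 : HasDerivAt (fun s : ℝ => s * (r * (r - 1))) (r * (r - 1)) s := by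
        simpa using (hasDerivAt_id s).mul_const (r * (r - 1))
      have h2 := (h1.mul (dA s hs)).sub (((dp (r - 1) s hs).sub (dm (r - 1) s hs)).const_mul r)
      have e : r - 1 - 1 = r - 2 := by ring
      rw [e] at h2
      refine HasDerivAt.congr_deriv h2 ?_
      simp only [hA]
      ring
    · intro s hs
      exact mul_nonneg (mul_nonneg hs.1 hrr) (pA s hs)
  -- the function `H`
  have hH : ∀ s ∈ Icc (0 : ℝ) (1 / 2), 0 ≤ 2 * x ^ r + s ^ 2 * (r * (r - 1) / 2) * A s - ((x + s) ^ r + (x - s) ^ r) := by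
    refine mono0 (f' := fun s => (s * (r * (r - 1)) * A s - r * ((x + s) ^ (r - 1) - (x - s) ^ (r - 1))) +
      s ^ 2 * (r * (r - 1) / 2) * A' s) ?_ (by simp; ring) ?_
    · intro s hs
      have h1 : HasDerivAt (fun s : ℝ => s ^ 2 * (r * (r - 1) / 2)) (2 * s * (r * (r - 1) / 2)) s := by
        simpa using (hasDerivAt_pow 2 s).mul_const (r * (r - 1) / 2)
      have h2 := ((h1.mul (dA s hs)).const_add (2 * x ^ r)).sub ((dp r s hs).add (dm r s hs))
      refine HasDerivAt.congr_deriv h2 ?_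
      ring
    · intro s hs
      exact add_nonneg (hK s hs) (mul_nonneg (mul_nonneg (by positivity) (by linarith)) (pA s hs))
  -- the function `E`
  have hE : ∀ s ∈ Icc (0 : ℝ) (1 / 2), 0 ≤ s * (2 * x ^ r) + s ^ 3 * (r * (r - 1) / 6) * A s -
      ((x + s) ^ (r + 1) - (x - s) ^ (r + 1)) / (r + 1) := by
    refine mono0 (f' := fun s => (2 * x ^ r + s ^ 2 * (r * (r - 1) / 2) * A s - ((x + s) ^ r + (x - s) ^ r)) +
      s ^ 3 * (r * (r - 1) / 6) * A' s) ?_ (by simp) ?_
    · intro s hs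
      have h1 : HasDerivAt (fun s : ℝ => s ^ 3 * (r * (r - 1) / 6)) (3 * s ^ 2 * (r * (r - 1) / 6)) s := by
        simpa using (hasDerivAt_pow 3 s).mul_const (r * (r - 1) / 6)
      have h0 : HasDerivAt (fun s : ℝ => s * (2 * x ^ r)) (2 * x ^ r) s := by
        simpa using (hasDerivAt_id s).mul_const (2 * x ^ r)
      have h2 := (h0.add (h1.mul (dA s hs))).sub (((dp (r + 1) s hs).sub (dm (r + 1) s hs)).div_const (r + 1))
      have e : r + 1 - 1 = r := by ring
      rw [e] at h2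
      refine HasDerivAt.congr_deriv h2 ?_
      have hne : r + 1 ≠ 0 := by linarith
      field_simp
      ring
    · intro s hs
      exact add_nonneg (hH s hs) (mul_nonneg (mul_nonneg (pow_nonneg hs.1 3) (by linarith)) (pA s hs))
  have h := hE (1 / 2) (right_mem_Icc.2 (by norm_num))
  simp only [hA] at h
  have e1 : (1 / 2 : ℝ) * (2 * x ^ r) = x ^ r := by ring
  have e2 : (1 / 2 : ℝ) ^ 3 * (r * (r - 1) / 6) = r * (r - 1) / 48 := by ring
  rw [e1, e2] at h
  linarith

end Pool.Agent.Q143.MH
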