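import Mathlib
import Pool.Agent.Q2.PM.Stm

/-!
# Project PM (helper2), job C14
-/

set_option autoImplicit false

namespace Q143.PM_C14

open Subgroup Q2.PM
open Q2.TN (IsPNil IsSyl IsChief Nm)

/-- `O_2(G)` -/
theorem exists_core (G : Type) [Group G] [Finite G] : ∃ U : Subgroup G, U.Normal ∧ IsPGroup 2 U ∧
    ∀ L : Subgroup G, L.Normal → IsPGroup 2 L → L ≤ U := by
  have : Fact (Nat.Prime 2) := ⟨Nat.prime_two⟩
  obtain ⟨P⟩ : Nonempty (Sylow 2 G) := inferInstance
  refine ⟨(P : Subgroup G).normalCore, inferInstance, ?_, ?_⟩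
  · exact P.isPGroup'.to_le (Subgroup.normalCore_le _)
  · intro L hL hLp
    rw [Subgroup.normal_le_normalCore]
    exact hLp.le_sylow_of_normal P

theorem card_rel {G : Type} [Group G] {A B : Subgroup G} (h : A ≤ B) :
    Nat.card A * A.relIndex B = Nat.card B := by
  rw [← relIndex_bot_left A, ← relIndex_bot_left B]
  exact relIndex_mul_relIndex _ _ _ bot_le h

theorem odd_of_dvd {a b : ℕ} (h : a ∣ b) (hb : Odd b) : Odd a := by
  rw [← Nat.not_even_iff_odd] at hb ⊢
  intro ha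
  exact hb (even_iff_two_dvd.2 ((even_iff_two_dvd.1 ha).trans h))

theorem c14 (h5 : S_B5) (h8 : S_B8) (h10 : S_B10) (h11 : S_B11) (c13 : S_C13) : S_C14 := by
  intro G _ _ P hE
  have h2 : Fact (Nat.Prime 2) := ⟨Nat.prime_two⟩
  -- an element of odd order and one of order dividing four which do not commute
  obtain ⟨X, y, m, hX, hy, hm, hym, x, hxX, hx4, hxy⟩ : ∃ (X : Subgroup G) (y : G) (m : ℕ),
      IsPGroup 2 X ∧ y ∈ Nm X ∧ Odd m ∧ y ^ m = 1 ∧ ∃ x ∈ X, x ^ 4 = 1 ∧ x * y ≠ y * x := by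
    by_contra hc
    push Not at hc
    exact hE.nil (h11 G fun X y m hX hy hm hym => h10 G X y m hX hy hm hym (hc X y m hX hy hm hym))
  -- conjugate into `P`
  obtain ⟨Q, hQ⟩ := hX.exists_le_sylow
  obtain ⟨g, hg⟩ := MulAction.exists_smul_eq G Q (hE.syl.1.toSylow hE.syl.2)
  have hg' : (Q : Subgroup G).map (MulAut.conj g).toMonoidHom = P := by
    have h5 : ((g • Q : Sylow 2 G) : Subgroup G) = P := by
      rw [hg]
      exact IsPGroup.toSylow_coe _ _
    exact h5
  have hxP : g * x * g⁻¹ ∈ P := by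
    rw [← hg']
    exact ⟨x, hQ hxX, rfl⟩
  have hx4' : (g * x * g⁻¹) ^ 4 = 1 := by
    rw [conj_pow, hx4]
    simp
  have hym' : (g * y * g⁻¹) ^ m = 1 := by
    rw [conj_pow, hym]
    simp
  have hxy' : (g * x * g⁻¹) * (g * y * g⁻¹) ≠ (g * y * g⁻¹) * (g * x * g⁻¹) := by
    intro h
    apply hxy
    have e1 : g * (x * y) * g⁻¹ = g * (y * x) * g⁻¹ := by
      calc g * (x * y) * g⁻¹ = (g * x * g⁻¹) * (g * y * g⁻¹) := by group
        _ = (g * y * g⁻¹) * (g * x * g⁻¹) := h
        _ = g * (y * x) * g⁻¹ := by group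
    exact mul_left_cancel (mul_right_cancel e1)
  set x' := g * x * g⁻¹
  set y' := g * y * g⁻¹
  obtain ⟨H, hH1, hH2, hH3⟩ := h5 2 G (zpowers x') P (by rwa [zpowers_le]) hE.syl.1
    (by
      rw [Nat.card_zpowers]
      exact Nat.le_of_dvd (by norm_num) (orderOf_dvd_of_pow_eq_one hx4'))
    hE.card_lt.le
  obtain ⟨U, hUn, hU2, hUmax⟩ := exists_core G
  have hHU : ¬ H ≤ U := fun h =>
    hxy' (c13 G P hE U hUn hU2 y' m hm hym' x' (h (hH1 (mem_zpowers x'))))
  obtain ⟨F, hFn, hUF, hF⟩ := hE.ext H U hH2 hH3 hUn hHU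
  rcases hF with ⟨j, hj⟩ | hodd
  · -- `F` is a 2-group
    refine absurd (hUmax F hFn ?_) (not_le_of_gt hUF)
    obtain ⟨n, hn⟩ := IsPGroup.iff_card.1 hU2
    refine IsPGroup.of_card (n := n + j) ?_
    rw [← card_rel hUF.le, hn, hj, pow_add]
  · -- the odd case
    have hone : U.relIndex F ≠ 1 := fun h => not_le_of_gt hUF (relIndex_eq_one.1 h)
    set q := (U.relIndex F).minFac
    have hq : q.Prime := Nat.minFac_prime hone
    have hqd : q ∣ U.relIndex F := Nat.minFac_dvd _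
    have hqodd : Odd q := odd_of_dvd hqd hodd
    have : Fact q.Prime := ⟨hq⟩
    have hqF : q ∣ Nat.card F := hqd.trans (by
      rw [← card_rel hUF.le]
      exact dvd_mul_left _ _)
    obtain ⟨e, he⟩ := exists_prime_orderOf_dvd_card' q hqF
    have heq : (e : G) ^ q = 1 := by
      have : e ^ q = 1 := by rw [← he]; exact pow_orderOf_eq_one e
      exact_mod_cast congrArg Subtype.val this
    have hcomm : ∀ d ∈ U, d * (e : G) = e * d := c13 G P hE U hUn hU2 e q hqodd heq
    set C := F ⊓ centralizer (U : Set G) with hC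
    have hCn : C.Normal := inferInstance
    have heC : (e : G) ∈ C := ⟨e.2, mem_centralizer_iff.2 fun d hd => hcomm d hd⟩
    have hZn : (C ⊓ U).Normal := inferInstance
    have hidx : Odd ((C ⊓ U).relIndex C) := by
      rw [inf_relIndex_left]
      refine odd_of_dvd ?_ hodd
      have h1 : U.relIndex (U ⊔ C) * (U ⊔ C).relIndex F = U.relIndex F :=
        relIndex_mul_relIndex _ _ _ le_sup_left (sup_le hUF.le inf_le_left)
      rw [relIndex_sup_left] at h1
      exact Dvd.intro _ h1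
    obtain ⟨O, hOn, hOodd, hO⟩ := h8 G (C ⊓ U) C hZn hCn inf_le_left
      (hU2.to_le inf_le_right)
      (fun x hx y hy => (mem_centralizer_iff.1 hy.2 x hx.2)) hidx
    have hOb := hE.odd O hOn hOodd
    rw [hOb, sup_bot_eq] at hO
    have heU : (e : G) ∈ U := by
      have : (e : G) ∈ C ⊓ U := by rw [hO]; exact heC
      exact this.2
    obtain ⟨k, hk⟩ := hU2 ⟨e, heU⟩
    have hk' : e ^ 2 ^ k = 1 := by
      apply Subtype.ext
      have h9 := congrArg Subtype.val hk
      simpa using h9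
    have h1 : q ∣ 2 ^ k := he ▸ orderOf_dvd_of_pow_eq_one hk'
    have h3 : q = 2 := (Nat.prime_dvd_prime_iff_eq hq Nat.prime_two).1 (hq.dvd_of_dvd_pow h1)
    rw [h3] at hqodd
    exact absurd hqodd (by decide)

end Q143.PM_C14
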